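import Mathlib
import Pool.Agent.R688.EN.Defs
import Pool.Agent.R688.EN.Fin

namespace Pool.Agent.Results.MP_e0c8e7_al.Counterexample

open Pool.Agent.R688.EN

/-- There is a finitely generated soluble group `G` which, for every `m` congruent to `2` modulo
`4` (in particular for `m = 2`), belongs to the class `(E_m N, ∞)^*` but has no normal subgroup
of exponent dividing `m` with finite-by-nilpotent quotient. -/
theorem result : ∃ (G : Type) (_ : Group G), Group.FG G ∧ Group.IsSolvable G ∧
    ∀ m : ℕ, m % 4 = 2 → InfStar m G ∧ ¬ ExpFinNil m G :=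
  Pool.Agent.R688.EN.main

end Pool.Agent.Results.MP_e0c8e7_al.Counterexample
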